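import Mathlib

/-!
# The AutoGraphiX conjecture on the Randic index and the independence number is false

The complete bipartite graph `K_{2,m}` has Randic index `√(2m)` and independence number at least
`m`, and `√(2m) + m > m + 1 + √(m+1)` for every `m ≥ 9`.
-/

open Finset SimpleGraph

namespace Pool.Agent.Results.MP_e31007_co.RandicIndependence

open Classical in
/-- The Randic index `R(G) = ∑_{uv ∈ E(G)} 1 / √(d_u d_v)`. -/
noncomputable def randic {V : Type} [Fintype V] (G : SimpleGraph V) : ℝ :=
  ∑ e ∈ G.edgeFinset, Sym2.lift ⟨fun u v => 1 / √((G.degree u : ℝ) * (G.degree v : ℝ)),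
    fun u v => by simp only [mul_comm]⟩ e

/-- `K_{2,m}` -/
abbrev K (m : ℕ) : SimpleGraph (Fin 2 ⊕ Fin m) := completeBipartiteGraph (Fin 2) (Fin m)

open Classical in
lemma deg_inl (m : ℕ) (i : Fin 2) : (K m).degree (Sum.inl i) = m := by
  rw [← card_neighborFinset_eq_degree]
  have : (K m).neighborFinset (Sum.inl i) = univ.map Function.Embedding.inr := by
    ext x
    rw [mem_neighborFinset]
    rcases x with x | x <;> simp
  rw [this, card_map, card_univ, Fintype.card_fin]

open Classical in
lemma deg_inr (m : ℕ) (i : Fin m) : (K m).degree (Sum.inr i) = 2 := by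
  rw [← card_neighborFinset_eq_degree]
  have : (K m).neighborFinset (Sum.inr i) = univ.map Function.Embedding.inl := by
    ext x
    rw [mem_neighborFinset]
    rcases x with x | x <;> simp
  rw [this, card_map, card_univ, Fintype.card_fin]

open Classical in
lemma card_edges (m : ℕ) : (K m).edgeFinset.card = 2 * m := by
  have h := encard_edgeSet_completeBipartiteGraph (W₁ := Fin 2) (W₂ := Fin m)
  rw [← coe_edgeFinset, Set.encard_coe_eq_coe_finsetCard] at h
  simp only [ENat.card_eq_coe_fintype_card, Fintype.card_fin] at h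
  exact_mod_cast h

lemma randic_K (m : ℕ) (hm : 0 < m) : randic (K m) = √(2 * m) := by
  classical
  unfold randic
  have h : ∀ e ∈ (K m).edgeFinset, Sym2.lift ⟨fun u v => 1 / √(((K m).degree u : ℝ) *
      ((K m).degree v : ℝ)), fun u v => by simp only [mul_comm]⟩ e = 1 / √(2 * m) := by
    intro e he
    induction e with
    | _ u v =>
      rw [mem_edgeFinset, mem_edgeSet] at he
      rw [Sym2.lift_mk]
      rcases u with u | u <;> rcases v with v | v
      · simp at he
      · show 1 / √(((K m).degree (Sum.inl u) : ℝ) * ((K m).degree (Sum.inr v) : ℝ)) = _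
        rw [deg_inl, deg_inr, mul_comm]
        norm_num
      · show 1 / √(((K m).degree (Sum.inr u) : ℝ) * ((K m).degree (Sum.inl v) : ℝ)) = _
        rw [deg_inl, deg_inr]
        norm_num
      · simp at he
  rw [sum_congr rfl h, sum_const, card_edges, nsmul_eq_mul]
  push_cast
  have h2 : (0 : ℝ) < 2 * m := by positivity
  have h3 : √(2 * (m : ℝ)) * √(2 * m) = 2 * m := Real.mul_self_sqrt h2.le
  have h4 : √(2 * (m : ℝ)) ≠ 0 := by positivity
  field_simp
  nlinarith [h3]

lemma le_indepNum (m : ℕ) : m ≤ (K m).indepNum := by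
  classical
  have h : (K m).IsIndepSet (univ.map (Function.Embedding.inr : Fin m ↪ Fin 2 ⊕ Fin m) :
      Finset (Fin 2 ⊕ Fin m)) := by
    intro a ha b hb _
    simp only [coe_map, coe_univ, Set.image_univ, Set.mem_range] at ha hb
    obtain ⟨a, rfl⟩ := ha
    obtain ⟨b, rfl⟩ := hb
    simp
  have := h.card_le_indepNum
  rwa [card_map, card_univ, Fintype.card_fin] at this

lemma connected_K (m : ℕ) (hm : 0 < m) : (K m).Connected := by
  have h0 : ∀ x : Fin 2 ⊕ Fin m, (K m).Reachable (Sum.inl 0) x := by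
    have h1 : ∀ y : Fin m, (K m).Reachable (Sum.inl 0) (Sum.inr y) := fun y =>
      Adj.reachable (by simp)
    intro x
    rcases x with x | x
    · exact (h1 ⟨0, hm⟩).trans (Adj.reachable (by simp))
    · exact h1 x
  have : Nonempty (Fin 2 ⊕ Fin m) := ⟨Sum.inl 0⟩
  exact ⟨fun x y => (h0 x).symm.trans (h0 y)⟩

/-- For every `n ≥ 11` some connected graph on `n` vertices (namely `K_{2,n-2}`) has
`R(G) + α(G) > n - 1 + √(n - 1)`. -/
theorem result (n : ℕ) (hn : 11 ≤ n) :
    ∃ (V : Type) (_ : Fintype V) (G : SimpleGraph V), Fintype.card V = n ∧ G.Connected ∧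
      (n : ℝ) - 1 + √((n : ℝ) - 1) < randic G + (G.indepNum : ℝ) := by
  obtain ⟨m, rfl⟩ : ∃ m, n = m + 2 := ⟨n - 2, by omega⟩
  have hm : 9 ≤ m := by omega
  have hmR : (9 : ℝ) ≤ m := by exact_mod_cast hm
  refine ⟨Fin 2 ⊕ Fin m, inferInstance, K m, by simp; omega, connected_K m (by omega), ?_⟩
  rw [randic_K m (by omega)]
  have h1 : (m : ℝ) ≤ ((K m).indepNum : ℝ) := by exact_mod_cast le_indepNum m
  have h2 : 1 + √((m : ℝ) + 1) < √(2 * m) := by
    apply Real.lt_sqrt_of_sq_lt
    have h3 : √((m : ℝ) + 1) ^ 2 = m + 1 := Real.sq_sqrt (by positivity)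
    have h4 : 2 * √((m : ℝ) + 1) < m - 2 := by
      have h5 : √((m : ℝ) + 1) < (m - 2) / 2 := by
        rw [Real.sqrt_lt' (by linarith)]
        nlinarith
      linarith
    nlinarith
  push_cast
  have h6 : (m : ℝ) + 2 - 1 = m + 1 := by ring
  rw [h6]
  linarith

end Pool.Agent.Results.MP_e31007_co.RandicIndependence
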